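import Pool.Agent.Helper45.BT.Cert

/-!
# Project SHARP: the certificates (block CERT), exponent `p > 0` not necessarily prime
-/

universe u v w

namespace Pool.Agent.SX

open MvPolynomial Pool.Agent.BT

/-- **CERT** for all exponents `p > 0`.  The certificates at the special curve propagate.  `K ⊆ L ⊇ A⟦ε⟧`. -/
theorem exists_cert {A : Type u} [Field A] [CharZero A] {N d p m c : ℕ} {U : Type} [Fintype U]
    {e : U → ℕ} (_hp : 0 < p) (hd : 0 < d) {T : A} (hT : T ≠ 0)
    {γ : Fin d → A} (hγ : Function.Injective γ) (hγ1 : ∀ i j, γ i ≠ γ j + 1)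
    {f : MonV (N + 2) d → PowerSeries A} {rel : ∀ u, MonV (N + 2) (e u) → PowerSeries A}
    (hf : pol (fun q => PowerSeries.constantCoeff (f q)) = inc N (PC.f0 γ T))
    (hrel : Noe (fun u q => PowerSeries.constantCoeff (rel u q)) c)
    {G : Fin d → MonV (N + 2) (1 + p * m) → PowerSeries A}
    (hG : ∀ i, pol (fun q => PowerSeries.constantCoeff (G i q)) = inc N (PC.G0 p m (γ i)))
    {L K : Type u} [Field L] [Field K] (ψ : PowerSeries A →+* L) (hψ : Function.Injective ψ)
    (ι : K →+* L) {fK : MonV (N + 2) d → K} {relK : ∀ u, MonV (N + 2) (e u) → K}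
    {GK : Fin d → MonV (N + 2) (1 + p * m) → K}
    (hfK : ∀ a, ι (fK a) = ψ (f a)) (hrelK : ∀ u a, ι (relK u a) = ψ (rel u a))
    (hGK : ∀ i a, ι (GK i a) = ψ (G i a)) (M₀ : ℕ) :
    ∃ M : ℕ, M₀ ≤ M ∧ 1 + p * m ≤ M ∧ 1 ≤ M ∧ FinX fK relK M ∧
      (∀ i j, i ≠ j → Cop (GK i) (GK j) fK relK M) ∧
      ∃ (D : Fin d → MonV (N + 2) M → K) (D' : Fin d → MonV (N + 2) M → K)
        (D'' : Fin d → U → MonV (N + 2) M → K) (c : Fin d → Fin (M + 1) → K), ∀ i, c i ≠ 0 ∧
        pol (D i) * pol (GK i) + comb fK relK (D' i) (D'' i) = polX (c i) := by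
  classical
  have hfm : map ψ (pol f) = map ι (pol fK) := by
    rw [map_pol, map_pol]
    refine congrArg pol ?_
    funext a
    exact (hfK a).symm
  have hrelm : ∀ u, map ψ (pol (rel u)) = map ι (pol (relK u)) := by
    intro u
    rw [map_pol, map_pol]
    refine congrArg pol ?_
    funext a
    exact (hrelK u a).symm
  have hGm : ∀ i, map ψ (pol (G i)) = map ι (pol (GK i)) := by
    intro i
    rw [map_pol, map_pol]
    refine congrArg pol ?_
    funext a
    exact (hGK i a).symm
  have hf0 : map PowerSeries.constantCoeff (pol f) = inc N (PC.f0 γ T) := by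
    rw [map_pol]
    exact hf
  have hrel0 : ∀ u, map PowerSeries.constantCoeff (pol (rel u)) =
      pol (fun q => PowerSeries.constantCoeff (rel u q)) := fun u => map_pol _ _
  have hG0 : ∀ i, map PowerSeries.constantCoeff (pol (G i)) = inc N (PC.G0 p m (γ i)) := by
    intro i
    rw [map_pol]
    exact hG i
  obtain ⟨M, hM⟩ : ∃ M : ℕ, M = M₀ + ∑ u, e u +
    d * ((1 + p * m) * Fintype.card (MonV (N + 2) c)) +
    (2 * (1 + p * m) + d + c + 1) := ⟨_, rfl⟩
  obtain ⟨Z, hZ⟩ : ∃ Z : ℕ, Z = d * ((1 + p * m) * Fintype.card (MonV (N + 2) c)) := ⟨_, rfl⟩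
  rw [← hZ] at hM
  have hM1 : 2 * (1 + p * m) + d + c + 1 ≤ M := by rw [hM]; exact Nat.le_add_left _ _
  have hM2 : d * ((1 + p * m) * Fintype.card (MonV (N + 2) c)) ≤ M := by
    rw [← hZ, hM]
    omega
  have hM3 : ∀ u, e u ≤ M := by
    intro u
    have h1 : e u ≤ ∑ u, e u := Finset.single_le_sum (fun _ _ => Nat.zero_le _) (Finset.mem_univ u)
    omega
  refine ⟨M, by omega, by omega, by omega, fun q => ?_, fun i j hij q => ?_, ?_⟩
  · -- FinX
    have hmain := open_span45 PowerSeries.constantCoeff ψ hψ ι (n := N + 2) (M := M)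
      (colR := colK45 M 1 1 d (X 0) 1 (pol f) (fun u => pol (rel u)) (e := e))
      (colK := colK45 M 1 1 d (X 0) 1 (pol fK) (fun u => pol (relK u)) (e := e)) (fun a => ?_)
      (fun a => ?_) (fun q => ?_) q
    · obtain ⟨A, B, H, H', h⟩ := extract45 (X 0) 1 fK relK hmain
      refine ⟨A, B, H, H', ?_⟩
      rw [← h, mul_one]
    · rw [map_colK45, map_colK45, hfm, map_X, map_X, map_one, map_one]
      simp only [hrelm]
    · refine deg_colK45 (by omega) (by omega) (by omega) hM3 ?_ ?_ (totalDegree_pol_le _)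
        (fun u => totalDegree_pol_le _) a
      · rw [totalDegree_X]
      · rw [totalDegree_one]; exact Nat.zero_le _
    · rw [← mem_span_iffV45]
      have e0 : (fun a => map PowerSeries.constantCoeff
          (colK45 M 1 1 d (X 0) 1 (pol f) (fun u => pol (rel u)) (e := e) a)) =
          colK45 M 1 1 d (X 0) 1 (inc N (PC.f0 γ T))
            (fun u => pol (fun q => PowerSeries.constantCoeff (rel u q))) (e := e) := by
        funext a
        rw [map_colK45, hf0, map_X, map_one]
        simp only [hrel0]
      rw [e0]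
      obtain ⟨k1, k2, k3, k4⟩ := colK_span45 M 1 1 d (X 0) 1 (inc N (PC.f0 γ T))
        (fun u => pol (fun q => PowerSeries.constantCoeff (rel u q))) (e := e)
      refine noe_span45 hrel k4 ?_ q
      intro s hs1 hs2 q
      refine sp_fin45 hd (by omega) γ (T := T) k1 (fun a => ?_) k3 q
      have h1 := k2 a
      rwa [mul_one] at h1
  · -- Cop
    have hmain := open_span45 PowerSeries.constantCoeff ψ hψ ι (n := N + 2) (M := M)
      (colR := colK45 M (1 + p * m) (1 + p * m) d (pol (G i)) (pol (G j)) (pol f)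
        (fun u => pol (rel u)) (e := e))
      (colK := colK45 M (1 + p * m) (1 + p * m) d (pol (GK i)) (pol (GK j)) (pol fK)
        (fun u => pol (relK u)) (e := e)) (fun a => ?_)
      (fun a => ?_) (fun q => ?_) q
    · exact extract45 _ _ fK relK hmain
    · rw [map_colK45, map_colK45, hfm, hGm, hGm]
      simp only [hrelm]
    · exact deg_colK45 (by omega) (by omega) (by omega) hM3 (totalDegree_pol_le _)
        (totalDegree_pol_le _) (totalDegree_pol_le _) (fun u => totalDegree_pol_le _) a
    · rw [← mem_span_iffV45]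
      have e0 : (fun a => map PowerSeries.constantCoeff
          (colK45 M (1 + p * m) (1 + p * m) d (pol (G i)) (pol (G j)) (pol f)
            (fun u => pol (rel u)) (e := e) a)) =
          colK45 M (1 + p * m) (1 + p * m) d (inc N (PC.G0 p m (γ i))) (inc N (PC.G0 p m (γ j)))
            (inc N (PC.f0 γ T))
            (fun u => pol (fun q => PowerSeries.constantCoeff (rel u q))) (e := e) := by
        funext a
        rw [map_colK45, hf0, hG0, hG0]
        simp only [hrel0]
      rw [e0]
      obtain ⟨k1, k2, k3, k4⟩ := colK_span45 M (1 + p * m) (1 + p * m) d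
        (inc N (PC.G0 p m (γ i))) (inc N (PC.G0 p m (γ j))) (inc N (PC.f0 γ T))
        (fun u => pol (fun q => PowerSeries.constantCoeff (rel u q))) (e := e)
      refine noe_span45 hrel k4 ?_ q
      intro s hs1 hs2 q
      exact PC.sp_cop45 (e := p * m) hd (by omega) hT γ (fun h => hij (hγ h)) (hγ1 i j) (hγ1 j i)
        (fun a => plane_mul45 (m' := M - (1 + p * m)) (by omega) k1 a)
        (fun a => plane_mul45 (m' := M - (1 + p * m)) (by omega) k2 a)
        (fun a => plane_mul45 (m' := M - d) (by omega) k3 a) q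
  · -- norm certificates
    have h1 : ∀ i, ∃ (D D' : MonV (N + 2) M → K) (D'' : U → MonV (N + 2) M → K)
        (c : Fin (M + 1) → K), c ≠ 0 ∧ pol D * pol (GK i) + comb fK relK D' D'' = polX c := by
      intro i
      apply norm_ofV45 hM2
      intro q
      refine open_span45 PowerSeries.constantCoeff ψ hψ ι (n := N + 2) (M := M)
        (colR := colM45 M (1 + p * m) d c (pol (G i)) (pol f) (fun u => pol (rel u)) (e := e))
        (fun a => ?_) (fun a => ?_) (fun q => ?_) q
      · rw [map_colM45, map_colM45, hGm, hfm]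
        simp only [hrelm]
      · exact deg_colM45 (by omega) hM3 (totalDegree_pol_le _) (totalDegree_pol_le _)
          (fun u => totalDegree_pol_le _) a
      · rw [← mem_span_iffV45]
        have e0 : (fun a => map PowerSeries.constantCoeff
            (colM45 M (1 + p * m) d c (pol (G i)) (pol f) (fun u => pol (rel u)) (e := e) a)) =
            colM45 M (1 + p * m) d c (inc N (PC.G0 p m (γ i))) (inc N (PC.f0 γ T))
              (fun u => pol (fun q => PowerSeries.constantCoeff (rel u q))) (e := e) := by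
          funext a
          rw [map_colM45, hf0, hG0]
          simp only [hrel0]
        rw [e0]
        obtain ⟨k1, k2, k3, k4⟩ := colM_span45 M (1 + p * m) d c
          (inc N (PC.G0 p m (γ i))) (inc N (PC.f0 γ T))
          (fun u => pol (fun q => PowerSeries.constantCoeff (rel u q))) (e := e)
        refine noe_span45 hrel k3 ?_ q
        intro s hs1 hs2 q
        refine PC.sp_norm45 (e := p * m) hd (by omega) hT γ (a := γ i)
          (fun a => plane_mul45 (m' := M - (1 + p * m)) (by omega) k1 a)
          (fun a => plane_mul45 (m' := M - d) (by omega) k2 a)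
          (fun l b => ?_) q
        rw [mem_planeS45, map_mul, map_pow, map_pow, inc_X0, inc_X1]
        exact k4 l b ⟨s, hs1⟩
    choose D D' D'' c h2 h3 using h1
    exact ⟨D, D', D'', c, fun i => ⟨h2 i, h3 i⟩⟩

end Pool.Agent.SX
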